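import Pool.Agent.H28.PL.DefsK
import Pool.Agent.H74.PL.JI

/-!
# Primitive parts of the Pell numbers (MP_cd3997_nt): row JI1

Incomparable indices, twice odd numbers.
-/

set_option autoImplicit false

open Finset

namespace Pool.Agent.H41.PL

open Pool.Agent.H28.PL Pool.Agent.H74.PL

theorem PD_pos (n : ℕ) : 0 < PD n := by
  unfold PD
  split_ifs
  · exact Nat.minFac_pos n
  · exact one_pos

theorem pf_JI1 (he : T_EU1) (hd : T_ADV) (hr : T_JR1) (hp : T_JP) (hpd : T_PPD) : T_JI1 := by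
  classical
  have _ := hd
  intro L hL n m hn hm
  obtain ⟨N, hN⟩ : ∃ N, n + m = N := ⟨_, rfl⟩
  induction N using Nat.strong_induction_on generalizing n m with
  | _ N ih =>
  intro hnm hmn
  set g := Nat.gcd n m with hg
  have hn0 : 0 < n := hn.pos
  have hm0 : 0 < m := hm.pos
  have hg0 : 0 < g := Nat.gcd_pos_of_pos_left _ hn0
  obtain ⟨a, ha⟩ : g ∣ n := Nat.gcd_dvd_left n m
  obtain ⟨b, hb⟩ : g ∣ m := Nat.gcd_dvd_right n m
  have hao : Odd a ∧ Odd g := by
    rw [ha, Nat.odd_mul] at hn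
    exact ⟨hn.2, hn.1⟩
  have hbo : Odd b := by
    rw [hb, Nat.odd_mul] at hm
    exact hm.2
  have hcop : Nat.Coprime a b := by
    have h1 := Nat.coprime_div_gcd_div_gcd hg0
    rw [← hg] at h1
    have h2 : n / g = a := Nat.div_eq_of_eq_mul_right hg0 ha
    have h3 : m / g = b := Nat.div_eq_of_eq_mul_right hg0 hb
    rwa [h2, h3] at h1
  have key := he _ (hr g hao.2) a b hao.1 hbo hcop
  rw [← ha, ← hb, ratio hp hL 1 g n hao.2 hn ⟨a, ha⟩, ratio hp hL 1 g m hao.2 hm ⟨b, hb⟩,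
    Nat.cast_prod, jac_prod_left] at key
  -- the prime power parts
  have hPD : ∀ k t : ℕ, 0 < k → k = g * t → ∏ d ∈ k.divisors \ g.divisors, PD d = t := by
    intro k t hk hkt
    have hsub : g.divisors ⊆ k.divisors := Nat.divisors_subset_of_dvd hk.ne' ⟨t, hkt⟩
    have h1 := Finset.prod_sdiff (f := PD) hsub
    rw [hpd k hk, hpd g hg0, hkt, mul_comm g t] at h1
    have h2 := Nat.eq_of_mul_eq_mul_right hg0 h1
    rw [hkt, mul_comm g t]
    exact h2
  have hea := hPD n a hn0 ha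
  have heb := hPD m b hm0 hb
  have hne : jacobiSym (a : ℤ) b ≠ 0 := by
    refine jacobiSym.ne_zero ?_
    rw [Int.gcd_natCast_natCast]
    exact hcop
  have hab : jacobiSym (a : ℤ) b = ∏ d ∈ n.divisors \ g.divisors,
      ∏ e ∈ m.divisors \ g.divisors, jacobiSym ((PD d : ℕ) : ℤ) (PD e) := by
    conv_lhs => rw [← hea, ← heb]
    rw [Nat.cast_prod, jac_prod_left]
    exact Finset.prod_congr rfl fun d _ => jac_prod_right _ _ _ fun e _ => (PD_pos e).ne'
  have hexp : ∀ d ∈ n.divisors \ g.divisors,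
      jacobiSym ((L (2 ^ 1 * d) : ℕ) : ℤ) (∏ e ∈ m.divisors \ g.divisors, L (2 ^ 1 * e)) =
      ∏ e ∈ m.divisors \ g.divisors, jacobiSym ((L (2 * d) : ℕ) : ℤ) (L (2 * e)) := by
    intro d _
    rw [pow_one]
    refine jac_prod_right _ _ _ fun e he' => L_ne hL ?_
    have := Nat.pos_of_mem_divisors (Finset.mem_sdiff.1 he').1
    positivity
  rw [Finset.prod_congr rfl hexp, hab] at key
  rw [hab] at hne
  have hnD : n ∈ n.divisors \ g.divisors := by
    rw [Finset.mem_sdiff]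
    refine ⟨Nat.mem_divisors_self n hn0.ne', fun h => hnm ?_⟩
    exact (Nat.dvd_of_mem_divisors h).trans (Nat.gcd_dvd_right n m)
  have hmE : m ∈ m.divisors \ g.divisors := by
    rw [Finset.mem_sdiff]
    refine ⟨Nat.mem_divisors_self m hm0.ne', fun h => hmn ?_⟩
    exact (Nat.dvd_of_mem_divisors h).trans (Nat.gcd_dvd_left n m)
  have hpair : ∀ d ∈ n.divisors \ g.divisors, ∀ e ∈ m.divisors \ g.divisors,
      (d, e) ≠ (n, m) → jacobiSym ((L (2 * d) : ℕ) : ℤ) (L (2 * e)) =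
        jacobiSym ((PD d : ℕ) : ℤ) (PD e) := by
    intro d hd' e he' hne
    obtain ⟨h1, h2⟩ := Finset.mem_sdiff.1 hd'
    obtain ⟨h3, h4⟩ := Finset.mem_sdiff.1 he'
    have hdn := Nat.dvd_of_mem_divisors h1
    have hem := Nat.dvd_of_mem_divisors h3
    have hdg : ¬ d ∣ g := fun h => h2 (Nat.mem_divisors.2 ⟨h, hg0.ne'⟩)
    have heg : ¬ e ∣ g := fun h => h4 (Nat.mem_divisors.2 ⟨h, hg0.ne'⟩)
    have hdle := Nat.le_of_dvd hn0 hdn
    have hele := Nat.le_of_dvd hm0 hem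
    refine ih (d + e) ?_ d e (hn.of_dvd_nat hdn) (hm.of_dvd_nat hem) rfl ?_ ?_
    · have : d ≠ n ∨ e ≠ m := by
        by_contra hc
        push Not at hc
        exact hne (Prod.ext hc.1 hc.2)
      rcases this with h | h <;> omega
    · exact fun h => hdg (Nat.dvd_gcd hdn (h.trans hem))
    · exact fun h => heg (Nat.dvd_gcd (h.trans hdn) hem)
  rw [← Finset.prod_product', ← Finset.prod_product'] at key
  rw [← Finset.prod_product'] at hne
  have hmem : (n, m) ∈ (n.divisors \ g.divisors) ×ˢ (m.divisors \ g.divisors) :=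
    Finset.mem_product.2 ⟨hnD, hmE⟩
  rw [← Finset.mul_prod_erase _ _ hmem, ← Finset.mul_prod_erase _ _ hmem] at key
  rw [← Finset.mul_prod_erase _ _ hmem] at hne
  have hrest : ∏ x ∈ ((n.divisors \ g.divisors) ×ˢ (m.divisors \ g.divisors)).erase (n, m),
      jacobiSym ((L (2 * x.1) : ℕ) : ℤ) (L (2 * x.2)) =
      ∏ x ∈ ((n.divisors \ g.divisors) ×ˢ (m.divisors \ g.divisors)).erase (n, m),
        jacobiSym ((PD x.1 : ℕ) : ℤ) (PD x.2) := by
    refine Finset.prod_congr rfl fun x hx => ?_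
    obtain ⟨h1, h2⟩ := Finset.mem_erase.1 hx
    obtain ⟨h3, h4⟩ := Finset.mem_product.1 h2
    exact hpair x.1 h3 x.2 h4 h1
  rw [hrest] at key
  exact mul_right_cancel₀ (right_ne_zero_of_mul hne) key

end Pool.Agent.H41.PL
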